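import Pool.Agent.Helper60.LZ.St

/-!
# Project LZ, module TOT: the union bound
-/

set_option autoImplicit false
set_option maxHeartbeats 1000000

noncomputable section

namespace Pool.Agent.Helper60.LZ

open Finset
open Pool.Agent.Helper15.AB (StMT StML)
open Pool.Agent.Helper30.PB (StPIP)
open Pool.Agent.Helper30.LY (Sy)

/-- the product of the primes `7 ≤ l ≤ x / 2` -/
private def PP (x : ℕ) : ℕ := ∏ l ∈ (Icc 7 (x / 2)).filter Nat.Prime, l

private theorem PP_dvd (x l : ℕ) (hl : l.Prime) (h7 : 7 ≤ l) (hx : 2 * l ≤ x) : l ∣ PP x := by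
  unfold PP
  apply Finset.dvd_prod_of_mem (fun l : ℕ => l)
  rw [mem_filter, mem_Icc]
  exact ⟨⟨h7, by omega⟩, hl⟩

private theorem PP_conv (x l : ℕ) (hl : l.Prime) (h : l ∣ PP x) : 2 * l ≤ x := by
  unfold PP at h
  obtain ⟨j, hj, hd⟩ := (hl.prime.dvd_finsetProd_iff _).1 h
  rw [mem_filter, mem_Icc] at hj
  have := (Nat.prime_dvd_prime_iff_eq hl hj.2).1 hd
  omega

private theorem PP_pos (x : ℕ) : 0 < PP x := by
  unfold PP
  exact Finset.prod_pos fun i hi => ((mem_filter.1 hi).2).pos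

private theorem PP_le (x : ℕ) : Real.log (PP x) ≤ x := by
  have h1 : PP x ≤ 4 ^ (x / 2) := by
    refine le_trans ?_ (primorial_le_four_pow (x / 2))
    unfold primorial PP
    apply Finset.prod_le_prod_of_subset_of_one_le'
    · intro l hl
      rw [mem_filter, mem_Icc] at hl
      rw [mem_filter, mem_range]
      exact ⟨by omega, hl.2⟩
    · intro l hl _
      rw [mem_filter] at hl
      exact hl.2.one_lt.le
  have h0 : (0 : ℝ) < PP x := by exact_mod_cast PP_pos x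
  have h2 : Real.log (PP x) ≤ Real.log ((4 : ℝ) ^ (x / 2)) :=
    Real.log_le_log h0 (by exact_mod_cast h1)
  rw [Real.log_pow, show (4 : ℝ) = 2 ^ 2 by norm_num, Real.log_pow] at h2
  have h3 := Real.log_two_lt_d9
  have h4 : (((x / 2 : ℕ)) : ℝ) ≤ x / 2 := Nat.cast_div_le
  have h5 : (0 : ℝ) ≤ ((x / 2 : ℕ) : ℝ) := Nat.cast_nonneg _
  have h6 := Real.log_two_gt_d9
  push_cast at h2
  nlinarith

private theorem PP_ge (hP : StPIP) : ∃ x₀ : ℕ, ∀ x : ℕ, x₀ ≤ x → (x : ℝ) / 128 ≤ Real.log (PP x) := by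
  obtain ⟨Y₀, hPr⟩ := hP 1 le_rfl
  refine ⟨max (2 * Y₀) 32, fun x hx => ?_⟩
  have hx1 : 2 * Y₀ ≤ x := le_trans (le_max_left _ _) hx
  have hx2 : 32 ≤ x := le_trans (le_max_right _ _) hx
  have hx2' : (32 : ℝ) ≤ x := by exact_mod_cast hx2
  set S : Finset ℕ := (Ioc (x / 4) (x / 2)).filter (fun P => P.Prime ∧ P % 1 = 1 % 1) with hSdef
  have hSc : ((x / 2 : ℕ) : ℝ) / (16 * Real.log ((x / 2 : ℕ) : ℝ)) ≤ (S.card : ℝ) := by
    have := hPr (x / 4) (x / 2) 1 (by omega) (by omega) (Nat.coprime_one_left 1)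
    simpa using this
  have hSm : ∀ l ∈ S, l.Prime ∧ x / 4 < l ∧ l ≤ x / 2 := by
    intro l hl
    rw [hSdef, mem_filter, mem_Ioc] at hl
    exact ⟨hl.2.1, hl.1.1, hl.1.2⟩
  set L : ℝ := Real.log x with hL
  have hx0 : (0 : ℝ) < x := by linarith
  have hlog4 : Real.log 4 ≤ L / 2 := by
    have h1 : Real.log 16 ≤ L := Real.log_le_log (by norm_num) (by linarith)
    have h2 : Real.log 16 = 2 * Real.log 4 := by
      rw [show (16 : ℝ) = 4 ^ 2 by norm_num, Real.log_pow]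
      norm_num
    linarith
  have hL0 : 0 < L := Real.log_pos (by linarith)
  have h2 : L / 2 ≤ Real.log ((x : ℝ) / 4) := by
    rw [Real.log_div hx0.ne' (by norm_num)]
    linarith
  have hY1 : (x : ℝ) / 4 ≤ ((x / 2 : ℕ) : ℝ) := by
    have : x ≤ 2 * (x / 2) + 1 := by omega
    have h3 : (x : ℝ) ≤ 2 * ((x / 2 : ℕ) : ℝ) + 1 := by exact_mod_cast this
    linarith
  have hY2 : Real.log ((x / 2 : ℕ) : ℝ) ≤ L := by
    apply Real.log_le_log (by linarith)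
    have : x / 2 ≤ x := by omega
    exact_mod_cast this
  have hY3 : 0 < Real.log ((x / 2 : ℕ) : ℝ) := Real.log_pos (by linarith)
  have hcard : (x : ℝ) / (64 * L) ≤ (S.card : ℝ) := by
    refine le_trans ?_ hSc
    rw [div_le_div_iff₀ (by positivity) (by positivity)]
    calc (x : ℝ) * (16 * Real.log ((x / 2 : ℕ) : ℝ)) ≤ x * (16 * L) := by gcongr
      _ = (x / 4) * (64 * L) := by ring
      _ ≤ ((x / 2 : ℕ) : ℝ) * (64 * L) := by gcongr
  have hsub : S ⊆ (Icc 7 (x / 2)).filter Nat.Prime := by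
    intro l hl
    obtain ⟨h1, h2, h3⟩ := hSm l hl
    rw [mem_filter, mem_Icc]
    exact ⟨⟨by omega, h3⟩, h1⟩
  unfold PP
  rw [Nat.cast_prod, Real.log_prod]
  · calc (x : ℝ) / 128 = (x : ℝ) / (64 * L) * (L / 2) := by field_simp; norm_num
      _ ≤ (S.card : ℝ) * Real.log ((x : ℝ) / 4) :=
          mul_le_mul hcard h2 (by positivity) (Nat.cast_nonneg _)
      _ = ∑ _l ∈ S, Real.log ((x : ℝ) / 4) := by rw [Finset.sum_const, nsmul_eq_mul]
      _ ≤ ∑ l ∈ S, Real.log (l : ℝ) := by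
          apply Finset.sum_le_sum
          intro l hl
          obtain ⟨h1, h2, h3⟩ := hSm l hl
          apply Real.log_le_log (by positivity)
          have h4 : x ≤ 4 * l := by omega
          have h5 : (x : ℝ) ≤ 4 * l := by exact_mod_cast h4
          linarith
      _ ≤ ∑ l ∈ (Icc 7 (x / 2)).filter Nat.Prime, Real.log (l : ℝ) := by
          apply Finset.sum_le_sum_of_subset_of_nonneg hsub
          intro l _ _
          exact Real.log_natCast_nonneg l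
  · intro l hl
    have := (mem_filter.1 hl).2.ne_zero
    exact_mod_cast this

private theorem split_sum (S B1 B2 : Finset ℕ) (A : ℕ → ℝ) (a1 a2 a3 : ℝ) (h1 : 0 ≤ a1) (h2 : 0 ≤ a2)
    (h3 : 0 ≤ a3) (hS : ∀ y ∈ S, 1 ≤ y) (hA1 : ∀ y ∈ S, A y ≤ a1)
    (hA2 : ∀ y ∈ S, 6 ≤ y → y - 2 ∉ B1 → A y ≤ a2) (hA3 : ∀ y ∈ S, 6 ≤ y → y - 2 ∉ B2 → A y ≤ a3) :
    ∑ y ∈ S, A y ≤ (5 + (B1.card : ℝ)) * a1 + B2.card * a2 + S.card * a3 := by
  classical
  have hpt : ∀ y ∈ S, A y ≤ (if y ≤ 5 ∨ y - 2 ∈ B1 then a1 else 0) +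
      (if 6 ≤ y ∧ y - 2 ∈ B2 then a2 else 0) + a3 := by
    intro y hy
    by_cases c1 : y ≤ 5 ∨ y - 2 ∈ B1
    · rw [if_pos c1]
      have : 0 ≤ (if 6 ≤ y ∧ y - 2 ∈ B2 then a2 else 0) := by split_ifs <;> linarith
      have := hA1 y hy
      linarith
    · rw [if_neg c1]
      push Not at c1
      by_cases c2 : y - 2 ∈ B2
      · rw [if_pos ⟨by omega, c2⟩]
        have := hA2 y hy (by omega) c1.2
        linarith
      · rw [if_neg (fun h => c2 h.2)]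
        have := hA3 y hy (by omega) c2
        linarith
  refine (Finset.sum_le_sum hpt).trans ?_
  rw [Finset.sum_add_distrib, Finset.sum_add_distrib, ← Finset.sum_filter, ← Finset.sum_filter,
    Finset.sum_const, Finset.sum_const, Finset.sum_const, nsmul_eq_mul, nsmul_eq_mul, nsmul_eq_mul]
  have e1 : ((S.filter (fun y => y ≤ 5 ∨ y - 2 ∈ B1)).card : ℝ) ≤ 5 + (B1.card : ℝ) := by
    have hsub : S.filter (fun y => y ≤ 5 ∨ y - 2 ∈ B1) ⊆ Icc 1 5 ∪ B1.image (fun t => t + 2) := by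
      intro y hy
      rw [mem_filter] at hy
      rw [mem_union, mem_Icc, mem_image]
      have := hS y hy.1
      by_cases h : y ≤ 5
      · exact Or.inl ⟨this, h⟩
      · exact Or.inr ⟨y - 2, hy.2.resolve_left h, by omega⟩
    have h := (card_le_card hsub).trans (card_union_le _ _)
    have h' : (B1.image (fun t => t + 2)).card ≤ B1.card := card_image_le
    have h5 : (Icc 1 5 : Finset ℕ).card = 5 := by simp
    have : (S.filter (fun y => y ≤ 5 ∨ y - 2 ∈ B1)).card ≤ 5 + B1.card := by omega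
    exact_mod_cast this
  have e2 : ((S.filter (fun y => 6 ≤ y ∧ y - 2 ∈ B2)).card : ℝ) ≤ (B2.card : ℝ) := by
    have hsub : S.filter (fun y => 6 ≤ y ∧ y - 2 ∈ B2) ⊆ B2.image (fun t => t + 2) := by
      intro y hy
      rw [mem_filter] at hy
      rw [mem_image]
      exact ⟨y - 2, hy.2.2, by omega⟩
    have h' : (B2.image (fun t => t + 2)).card ≤ B2.card := card_image_le
    exact_mod_cast (card_le_card hsub).trans h'
  have := mul_le_mul_of_nonneg_right e1 h1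
  have := mul_le_mul_of_nonneg_right e2 h2
  linarith

/-- conditions which hold for large `x` -/
private theorem large (κ δ A1 A2 A3 : ℝ) (hκ : 0 < κ) (hδ : 0 < δ) (hA1 : 0 < A1) (hA2 : 0 < A2)
    (hA3 : 0 < A3) (a : ℕ) :
    ∃ x₀ : ℕ, ∀ x : ℕ, x₀ ≤ x → a ≤ x ∧ 16 ≤ x ∧ 1 ≤ Real.log x ∧ (x : ℝ) + 1 ≤ κ * (x ^ 2 * Real.log x) ∧
      Real.log x ≤ x ∧ 3 * Real.log x ≤ x / 128 ∧ (60 * Real.log x + 2) * Real.log x ^ 6 ≤ x ∧
      256 / δ ≤ Real.log x ^ 6 ∧ 2000 ≤ δ * x ∧ Real.log x ≤ δ * x / 512 ∧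
      A1 * Real.log x / x ≤ 1 / 16 ∧ A2 / Real.log x ^ 3 ≤ 1 / 16 ∧ A3 * Real.log x ^ 10 / x ≤ 1 / 4 := by
  have hlog : Filter.Tendsto (fun x : ℕ => Real.log (x : ℝ)) Filter.atTop Filter.atTop :=
    Real.tendsto_log_atTop.comp tendsto_natCast_atTop_atTop
  have hcast : Filter.Tendsto (fun x : ℕ => (x : ℝ)) Filter.atTop Filter.atTop :=
    tendsto_natCast_atTop_atTop
  -- a power of the logarithm is small
  have hpow : ∀ (n : ℕ) (ε : ℝ), 0 < ε → ∀ᶠ x : ℕ in Filter.atTop, Real.log x ^ n ≤ ε * x := by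
    intro n ε hε
    have h := (Real.isLittleO_pow_log_id_atTop (n := n)).bound (c := ε) hε
    have h' := hcast.eventually h
    filter_upwards [h', Filter.eventually_ge_atTop 1] with x hx h1
    have hx0 : (0 : ℝ) ≤ x := Nat.cast_nonneg x
    rw [Real.norm_eq_abs, Real.norm_eq_abs,
      abs_of_nonneg (pow_nonneg (Real.log_natCast_nonneg x) n)] at hx
    simp only [id] at hx
    rwa [abs_of_nonneg hx0] at hx
  have ev : ∀ᶠ x : ℕ in Filter.atTop, a ≤ x ∧ 16 ≤ x ∧ 1 ≤ Real.log x ∧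
      2 / κ ≤ x ∧ Real.log x ^ 1 ≤ (min 1 (min (1 / 384) (min (δ / 512) (1 / (16 * A1))))) * x ∧
      Real.log x ^ 7 ≤ 1 / 62 * x ∧ 256 / δ ≤ Real.log x ∧ 2000 / δ ≤ x ∧ 16 * A2 ≤ Real.log x ∧
      Real.log x ^ 10 ≤ (1 / (4 * A3)) * x :=
    (Filter.eventually_ge_atTop a).and ((Filter.eventually_ge_atTop 16).and
      ((hlog.eventually_ge_atTop 1).and ((hcast.eventually_ge_atTop _).and
      ((hpow 1 _ (by positivity)).and ((hpow 7 _ (by norm_num)).and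
      ((hlog.eventually_ge_atTop _).and ((hcast.eventually_ge_atTop _).and
      ((hlog.eventually_ge_atTop _).and (hpow 10 _ (by positivity))))))))))
  obtain ⟨x₀, hx₀⟩ := Filter.eventually_atTop.1 ev
  refine ⟨x₀, fun x hx => ?_⟩
  obtain ⟨g1, g2, g3, g4, g5, g6, g7, g8, g9, g10⟩ := hx₀ x hx
  have hx16 : (16 : ℝ) ≤ x := by exact_mod_cast g2
  have hx0 : (0 : ℝ) < x := by linarith
  set L := Real.log x with hL
  rw [pow_one] at g5
  have hL0 : 0 < L := by linarith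
  have m1 : min 1 (min (1 / 384) (min (δ / 512) (1 / (16 * A1)))) ≤ 1 := min_le_left _ _
  have m2 : min 1 (min (1 / 384) (min (δ / 512) (1 / (16 * A1)))) ≤ 1 / 384 :=
    (min_le_right _ _).trans (min_le_left _ _)
  have m3 : min 1 (min (1 / 384) (min (δ / 512) (1 / (16 * A1)))) ≤ δ / 512 :=
    (min_le_right _ _).trans ((min_le_right _ _).trans (min_le_left _ _))
  have m4 : min 1 (min (1 / 384) (min (δ / 512) (1 / (16 * A1)))) ≤ 1 / (16 * A1) :=
    (min_le_right _ _).trans ((min_le_right _ _).trans (min_le_right _ _))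
  have n1 := g5.trans (mul_le_mul_of_nonneg_right m1 hx0.le)
  have n2 := g5.trans (mul_le_mul_of_nonneg_right m2 hx0.le)
  have n3 := g5.trans (mul_le_mul_of_nonneg_right m3 hx0.le)
  have n4 := g5.trans (mul_le_mul_of_nonneg_right m4 hx0.le)
  have hpw : ∀ n : ℕ, n ≠ 0 → L ≤ L ^ n := fun n hn => le_self_pow₀ g3 hn
  refine ⟨g1, g2, g3, ?_, by linarith, by linarith, ?_, ?_, ?_, by linarith, ?_, ?_, ?_⟩
  · rw [div_le_iff₀ hκ] at g4
    have h1 : (2 : ℝ) * x ≤ x * κ * x := mul_le_mul_of_nonneg_right g4 hx0.le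
    have h2 : x * κ * x ≤ κ * (x ^ 2 * L) := by
      have : κ * x ^ 2 * 1 ≤ κ * x ^ 2 * L := mul_le_mul_of_nonneg_left g3 (by positivity)
      linarith
    linarith
  · have h1 : L ^ 6 ≤ L ^ 7 := pow_le_pow_right₀ g3 (by norm_num)
    have h2 : (60 * L + 2) * L ^ 6 = 60 * L ^ 7 + 2 * L ^ 6 := by ring
    rw [h2]
    linarith
  · exact g7.trans (hpw 6 (by norm_num))
  · rw [div_le_iff₀ hδ] at g8
    linarith
  · rw [div_le_iff₀ hx0]
    have : A1 * L ≤ A1 * (1 / (16 * A1) * x) := mul_le_mul_of_nonneg_left n4 hA1.le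
    calc A1 * L ≤ A1 * (1 / (16 * A1) * x) := this
      _ = 1 / 16 * x := by field_simp
  · rw [div_le_iff₀ (by positivity)]
    have := hpw 3 (by norm_num)
    linarith
  · rw [div_le_iff₀ hx0]
    calc A3 * L ^ 10 ≤ A3 * (1 / (4 * A3) * x) := mul_le_mul_of_nonneg_left g10 hA3.le
      _ = 1 / 4 * x := by field_simp

/-- MODULE TOT. -/
theorem hTOT (hS : StSRZ) (hB : StBAD) (hA : StFYA) (hF : StFYB) (hL : StSPL) (hG : StGOO)
    (hP : StPIP) : StTOT := by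
  classical
  obtain ⟨C1, hC1, hS⟩ := hS
  obtain ⟨C2, hC2, hB⟩ := hB
  obtain ⟨C3, δ3, hC3, hδ3, hδ3', x3, hA⟩ := hA
  obtain ⟨C4, δ4, hC4, hδ4, hδ4', x4, hF⟩ := hF
  obtain ⟨C5, hC5, hL⟩ := hL
  obtain ⟨C6, hC6, hG⟩ := hG
  obtain ⟨x5, hPge⟩ := PP_ge hP
  obtain ⟨δ, hδdef⟩ : ∃ δ : ℝ, δ = min δ3 δ4 := ⟨_, rfl⟩
  have hδ0 : 0 < δ := by rw [hδdef]; exact lt_min hδ3 hδ4
  have hδ1 : δ ≤ 1 / 4 := by rw [hδdef]; exact (min_le_left _ _).trans hδ3'
  have hδa : δ ≤ δ3 := by rw [hδdef]; exact min_le_left _ _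
  have hδb : δ ≤ δ4 := by rw [hδdef]; exact min_le_right _ _
  obtain ⟨C7, hC7⟩ : ∃ C7 : ℝ, C7 = 512 * Real.exp C5 / δ := ⟨_, rfl⟩
  have hC70 : 0 < C7 := by rw [hC7]; positivity
  obtain ⟨D, hD⟩ : ∃ D : ℝ, D = C4 * Real.exp (C6 + 1) := ⟨_, rfl⟩
  have hD0 : 0 < D := by rw [hD]; positivity
  obtain ⟨κ, hκ⟩ : ∃ κ : ℝ, κ = min 1 (1 / (4 * (C1 * D * C7 ^ 2))) := ⟨_, rfl⟩
  have hκ0 : 0 < κ := by rw [hκ]; exact lt_min one_pos (by positivity)
  have hκ1 : κ ≤ 1 := by rw [hκ]; exact min_le_left _ _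
  have hκ2 : C1 * D * C7 ^ 2 * κ ≤ 1 / 4 := by
    have h1 : κ ≤ 1 / (4 * (C1 * D * C7 ^ 2)) := by rw [hκ]; exact min_le_right _ _
    calc C1 * D * C7 ^ 2 * κ ≤ C1 * D * C7 ^ 2 * (1 / (4 * (C1 * D * C7 ^ 2))) :=
          mul_le_mul_of_nonneg_left h1 (by positivity)
      _ = 1 / 4 := by field_simp
  obtain ⟨x₀, hx₀⟩ := large κ δ (5 * C3 * C7) (3 * C2 * C3 * C7) (6 * C2 * D * C7 ^ 2) hκ0 hδ0
    (by positivity) (by positivity) (by positivity) (max x3 (max x4 x5))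
  refine ⟨κ, 1 / 128, hκ0, by norm_num, x₀, fun x hx => ?_⟩
  obtain ⟨g1, g2, g3, g4, g5, g6, g7, g8, g9, g10, g11, g12, g13⟩ := hx₀ x hx
  have gx3 : x3 ≤ x := (le_max_left _ _).trans g1
  have gx4 : x4 ≤ x := ((le_max_left _ _).trans (le_max_right _ _)).trans g1
  have gx5 : x5 ≤ x := ((le_max_right _ _).trans (le_max_right _ _)).trans g1
  obtain ⟨L, hLd⟩ : ∃ L : ℝ, L = Real.log x := ⟨_, rfl⟩
  rw [← hLd] at g3 g4 g5 g6 g7 g8 g10 g11 g12 g13
  have hx16 : (16 : ℝ) ≤ x := by exact_mod_cast g2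
  have hx0 : (0 : ℝ) < x := by linarith
  have hL0 : 0 < L := by linarith
  -- the modulus
  obtain ⟨P, hPd⟩ : ∃ P : ℕ, P = PP x := ⟨_, rfl⟩
  have hP0 : 0 < P := by rw [hPd]; exact PP_pos x
  have hP0' : (0 : ℝ) < P := by exact_mod_cast hP0
  have hPlo : (x : ℝ) / 128 ≤ Real.log P := by rw [hPd]; exact hPge x gx5
  have hPhi : Real.log P ≤ x := by rw [hPd]; exact PP_le x
  have hPl : ∀ l : ℕ, l.Prime → l ∣ P → 2 * l ≤ x := by
    intro l hl hd
    rw [hPd] at hd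
    exact PP_conv x l hl hd
  have hx3P : x ^ 3 ≤ P := by
    have h1 : Real.log ((x : ℝ) ^ 3) ≤ Real.log P := by
      rw [Real.log_pow, ← hLd]
      push_cast
      linarith
    have h2 := (Real.log_le_log_iff (by positivity) hP0').1 h1
    exact_mod_cast h2
  -- the range
  obtain ⟨K, hK⟩ : ∃ K : ℕ, K = ⌊κ * (x ^ 2 * L)⌋₊ := ⟨_, rfl⟩
  have hKle : (K : ℝ) ≤ κ * (x ^ 2 * L) := by rw [hK]; exact Nat.floor_le (by positivity)
  have hKlt : κ * (x ^ 2 * L) < K + 1 := by rw [hK]; exact Nat.lt_floor_add_one _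
  have hxK : x ≤ K := by
    have : (x : ℝ) < K := by linarith
    exact_mod_cast this.le
  have hKx : K ≤ x ^ 3 := by
    have : (K : ℝ) ≤ (x : ℝ) ^ 3 := by
      calc (K : ℝ) ≤ κ * (x ^ 2 * L) := hKle
        _ ≤ 1 * (x ^ 2 * x) := by gcongr
        _ = (x : ℝ) ^ 3 := by ring
    exact_mod_cast this
  have hK0 : (0 : ℝ) < K := by
    have : (x : ℝ) ≤ K := by exact_mod_cast hxK
    linarith
  have hLK : L ≤ Real.log K := by
    rw [hLd]
    exact Real.log_le_log hx0 (by exact_mod_cast hxK)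
  have hLK' : Real.log K ≤ 3 * L := by
    have h1 : Real.log K ≤ Real.log ((x : ℝ) ^ 3) := Real.log_le_log hK0 (by exact_mod_cast hKx)
    rw [Real.log_pow, ← hLd] at h1
    exact_mod_cast h1
  -- the exponent `J`
  have hPδ1 : (1 : ℝ) ≤ (P : ℝ) ^ δ := Real.one_le_rpow (by exact_mod_cast hP0) hδ0.le
  obtain ⟨J, hJ⟩ : ∃ J : ℕ, J = Nat.log 2 ⌊(P : ℝ) ^ δ⌋₊ := ⟨_, rfl⟩
  have hfl : ⌊(P : ℝ) ^ δ⌋₊ ≠ 0 := by
    have := Nat.le_floor (a := (P : ℝ) ^ δ) (n := 1) (by exact_mod_cast hPδ1)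
    omega
  have hJ1 : (2 : ℝ) ^ J ≤ (P : ℝ) ^ δ := by
    have h1 : 2 ^ J ≤ ⌊(P : ℝ) ^ δ⌋₊ := by rw [hJ]; exact Nat.pow_log_le_self 2 hfl
    calc (2 : ℝ) ^ J ≤ (⌊(P : ℝ) ^ δ⌋₊ : ℝ) := by exact_mod_cast h1
      _ ≤ (P : ℝ) ^ δ := Nat.floor_le (by linarith)
  have hJ2 : (P : ℝ) ^ δ ≤ (2 : ℝ) ^ (J + 1) := by
    have h1 : ⌊(P : ℝ) ^ δ⌋₊ < 2 ^ (J + 1) := by
      rw [hJ]
      exact Nat.lt_pow_succ_log_self (by norm_num) _
    have h2 : ⌊(P : ℝ) ^ δ⌋₊ + 1 ≤ 2 ^ (J + 1) := h1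
    calc (P : ℝ) ^ δ ≤ (⌊(P : ℝ) ^ δ⌋₊ : ℝ) + 1 := (Nat.lt_floor_add_one _).le
      _ ≤ (2 : ℝ) ^ (J + 1) := by exact_mod_cast h2
  have hl2a := Real.log_two_gt_d9
  have hl2b := Real.log_two_lt_d9
  have hJlog1 : (J : ℝ) * Real.log 2 ≤ δ * Real.log P := by
    have h1 := Real.log_le_log (by positivity) hJ1
    rwa [Real.log_pow, Real.log_rpow hP0'] at h1
  have hJlog2 : δ * Real.log P ≤ ((J : ℝ) + 1) * Real.log 2 := by
    have h1 := Real.log_le_log (by positivity) hJ2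
    rw [Real.log_pow, Real.log_rpow hP0'] at h1
    push_cast at h1
    exact h1
  have hJ0 : (0 : ℝ) ≤ J := Nat.cast_nonneg J
  have hδx : δ * (x / 128) ≤ δ * Real.log P := mul_le_mul_of_nonneg_left hPlo hδ0.le
  have hJlo : δ * x / 256 ≤ J := by
    have h1 : ((J : ℝ) + 1) * Real.log 2 ≤ ((J : ℝ) + 1) * 1 :=
      mul_le_mul_of_nonneg_left (by linarith) (by linarith)
    linarith
  have hJhi : (J : ℝ) ≤ x := by
    have h1 : δ * Real.log P ≤ 1 / 4 * x := by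
      calc δ * Real.log P ≤ δ * x := mul_le_mul_of_nonneg_left hPhi hδ0.le
        _ ≤ 1 / 4 * x := mul_le_mul_of_nonneg_right hδ1 hx0.le
    have h2 : (J : ℝ) * (1 / 2) ≤ J * Real.log 2 := mul_le_mul_of_nonneg_left (by linarith) hJ0
    linarith
  have hJ1' : 1 ≤ J := by
    have : (1 : ℝ) ≤ J := by linarith
    exact_mod_cast this
  -- the sieve limit
  obtain ⟨w, hw⟩ : ∃ w : ℕ, w = 2 ^ J - 1 := ⟨_, rfl⟩
  have hwδ : (w : ℝ) ≤ (P : ℝ) ^ δ := by
    refine le_trans ?_ hJ1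
    have : w ≤ 2 ^ J := by rw [hw]; exact Nat.sub_le _ _
    exact_mod_cast this
  have hwlo : (2 : ℝ) ^ (J - 1) ≤ w := by
    have h1 : 2 ^ (J - 1) ≤ w := by
      rw [hw]
      have h2 : 2 ^ J = 2 * 2 ^ (J - 1) := by
        rw [← pow_succ']
        congr 1
        omega
      have h3 : 1 ≤ 2 ^ (J - 1) := Nat.one_le_two_pow
      omega
    exact_mod_cast h1
  have hlogw : δ * x / 512 ≤ Real.log w := by
    have h1 := Real.log_le_log (by positivity) hwlo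
    rw [Real.log_pow, Nat.cast_sub hJ1'] at h1
    push_cast at h1
    have h2 : ((δ * x / 256) - 1) * Real.log 2 ≤ ((J : ℝ) - 1) * Real.log 2 :=
      mul_le_mul_of_nonneg_right (by linarith) (by linarith)
    nlinarith
  have hwpos : (0 : ℝ) < w := lt_of_lt_of_le (by positivity) hwlo
  have hxw : x ≤ w := by
    have h1 : Real.log x ≤ Real.log w := by
      rw [← hLd]
      linarith
    have h2 := (Real.log_le_log_iff hx0 hwpos).1 h1
    exact_mod_cast h2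
  -- the sum of `1 / l`
  have hE : Real.exp (-∑ l ∈ pw x w, (1 : ℝ) / l) ≤ C7 * (L / x) := by
    have h1 := (abs_le.1 (hL x w (by omega) hxw)).1
    rw [← hLd] at h1
    have hlw : 0 < Real.log w := lt_of_lt_of_le (by positivity) hlogw
    have h2 : Real.exp (-∑ l ∈ pw x w, (1 : ℝ) / l) ≤
        Real.exp (C5 + Real.log L - Real.log (Real.log w)) := Real.exp_le_exp.2 (by linarith)
    rw [Real.exp_sub, Real.exp_add, Real.exp_log hL0, Real.exp_log hlw] at h2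
    refine h2.trans ?_
    rw [div_le_iff₀ hlw]
    calc Real.exp C5 * L = C7 * (L / x) * (δ * x / 512) := by
          rw [hC7]
          field_simp
      _ ≤ C7 * (L / x) * Real.log w := mul_le_mul_of_nonneg_left hlogw (by positivity)
  have hE0 := Real.exp_pos (-∑ l ∈ pw x w, (1 : ℝ) / l)
  -- the levels
  obtain ⟨j0, hj0⟩ : ∃ j0 : ℕ, j0 = Nat.clog 2 (256 * K ^ 4) := ⟨_, rfl⟩
  have hKpos : 1 ≤ K := by omega
  have h256 : 1 < 256 * K ^ 4 := by
    have : 1 ≤ K ^ 4 := Nat.one_le_pow _ _ hKpos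
    omega
  have hj0a : 256 * K ^ 4 ≤ 2 ^ j0 := by rw [hj0]; exact Nat.le_pow_clog (by norm_num) _
  have hj0b : 2 ^ j0 ≤ 512 * K ^ 4 := by
    have h1 : 2 ^ (j0 - 1) < 256 * K ^ 4 := by
      rw [hj0]
      exact Nat.pow_pred_clog_lt_self (by norm_num) h256
    have h2 : 1 ≤ j0 := by
      rw [hj0]
      exact Nat.clog_pos (by norm_num) (by omega)
    have h3 : 2 ^ j0 = 2 * 2 ^ (j0 - 1) := by
      rw [← pow_succ']
      congr 1
      omega
    omega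
  have hj0c : 2 ^ j0 ≤ x ^ 40 := by
    calc 2 ^ j0 ≤ 512 * K ^ 4 := hj0b
      _ ≤ 16 ^ 3 * (x ^ 3) ^ 4 := by
          apply Nat.mul_le_mul (by norm_num)
          exact Nat.pow_le_pow_left hKx 4
      _ ≤ x ^ 3 * (x ^ 3) ^ 4 := by
          apply Nat.mul_le_mul_right
          exact Nat.pow_le_pow_left g2 3
      _ = x ^ 15 := by ring
      _ ≤ x ^ 40 := Nat.pow_le_pow_right (by omega) (by norm_num)
  have hj0d : x ≤ 2 ^ j0 := by
    have h1 : K ≤ K ^ 4 := Nat.le_self_pow (by norm_num) K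
    omega
  have hj0e : (j0 : ℝ) ≤ 60 * L := by
    have h1 : Real.log ((2 : ℝ) ^ j0) ≤ Real.log ((x : ℝ) ^ 40) :=
      Real.log_le_log (by positivity) (by exact_mod_cast hj0c)
    rw [Real.log_pow, Real.log_pow, ← hLd] at h1
    push_cast at h1
    have h2 : (0 : ℝ) ≤ j0 := Nat.cast_nonneg _
    nlinarith
  have hL6 : 0 < L ^ 6 := by positivity
  have hxL : 60 * L + 2 ≤ x / L ^ 6 := by
    rw [le_div_iff₀ hL6]
    exact g7
  obtain ⟨j1, hj1⟩ : ∃ j1 : ℕ, j1 = ⌊(x : ℝ) / L ^ 6⌋₊ := ⟨_, rfl⟩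
  have hj1a : (j1 : ℝ) ≤ x / L ^ 6 := by rw [hj1]; exact Nat.floor_le (by positivity)
  have hj1b : (x : ℝ) / L ^ 6 < j1 + 1 := by rw [hj1]; exact Nat.lt_floor_add_one _
  have hj1c : (x : ℝ) / L ^ 6 ≤ 2 * j1 := by linarith
  have hj01 : j0 ≤ j1 := by
    have : (j0 : ℝ) ≤ j1 := by linarith
    exact_mod_cast this
  have hj1J : j1 ≤ J := by
    have h1 : (x : ℝ) / L ^ 6 ≤ δ * x / 256 := by
      rw [div_le_iff₀ hL6]
      have h2 : 256 ≤ L ^ 6 * δ := by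
        rwa [div_le_iff₀ hδ0] at g8
      calc (x : ℝ) = x / 256 * 256 := by ring
        _ ≤ x / 256 * (L ^ 6 * δ) := mul_le_mul_of_nonneg_left h2 (by positivity)
        _ = δ * x / 256 * L ^ 6 := by ring
    have : (j1 : ℝ) ≤ J := by linarith
    exact_mod_cast this
  have hj1pos : (0 : ℝ) < j1 := by linarith
  have hjj : (J : ℝ) / j1 ≤ 2 * L ^ 6 := by
    rw [div_le_iff₀ hj1pos]
    rw [div_le_iff₀ hL6] at hj1c
    linarith
  have hjj1 : (1 : ℝ) ≤ (J : ℝ) / j1 := by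
    rw [one_le_div hj1pos]
    exact_mod_cast hj1J
  -- the bad sets
  obtain ⟨B1, hB1⟩ : ∃ B1 : Finset ℕ, B1 = (Icc 4 K).filter (fun t => 1 < ∑ j ∈ Ico j0 j1, |bl t j|) := ⟨_, rfl⟩
  obtain ⟨B2, hB2⟩ : ∃ B2 : Finset ℕ, B2 = (Icc 4 K).filter (fun t => 1 < ∑ j ∈ Ico j0 J, |bl t j|) := ⟨_, rfl⟩
  have hB1c : (B1.card : ℝ) ≤ C2 * (x / L ^ 6 * L * (3 * L)) := by
    have h1 := hB K j0 j1 (by omega) hj0a hj01
    rw [hB1]
    refine h1.trans (mul_le_mul_of_nonneg_left ?_ hC2.le)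
    have h2 : Real.log j1 ≤ L := by
      rw [hLd]
      apply Real.log_le_log hj1pos
      calc (j1 : ℝ) ≤ J := by exact_mod_cast hj1J
        _ ≤ x := hJhi
    have h3 : 0 ≤ Real.log (j1 : ℝ) := Real.log_natCast_nonneg _
    have h4 : 0 ≤ Real.log (K : ℝ) := Real.log_natCast_nonneg _
    gcongr
  have hB2c : (B2.card : ℝ) ≤ C2 * (x * L * (3 * L)) := by
    have h1 := hB K j0 J (by omega) hj0a (hj01.trans hj1J)
    rw [hB2]
    refine h1.trans (mul_le_mul_of_nonneg_left ?_ hC2.le)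
    have h2 : Real.log J ≤ L := by
      rw [hLd]
      exact Real.log_le_log (by exact_mod_cast hJ1') hJhi
    have h3 : 0 ≤ Real.log (J : ℝ) := Real.log_natCast_nonneg _
    have h4 : 0 ≤ Real.log (K : ℝ) := Real.log_natCast_nonneg _
    gcongr
  -- the bounds for one `y`
  obtain ⟨E, hEd⟩ : ∃ E : ℝ, E = C7 * (L / x) := ⟨_, rfl⟩
  have hEpos : 0 < E := by rw [hEd]; positivity
  rw [← hEd] at hE
  have hwa : (w : ℝ) ≤ (P : ℝ) ^ δ3 :=
    hwδ.trans (Real.rpow_le_rpow_of_exponent_le (by exact_mod_cast hP0) hδa)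
  have hwb : (w : ℝ) ≤ (P : ℝ) ^ δ4 :=
    hwδ.trans (Real.rpow_le_rpow_of_exponent_le (by exact_mod_cast hP0) hδb)
  have hmemS : ∀ y ∈ Sy x K, 1 ≤ y ∧ y ≤ K := by
    intro y hy
    unfold Pool.Agent.Helper30.LY.Sy at hy
    rw [mem_filter, mem_Icc] at hy
    exact hy.1
  have hFA : ∀ y ∈ Sy x K, ((am P y).card : ℝ) ≤ C3 * (P * E) := by
    intro y hy
    obtain ⟨y1, y2⟩ := hmemS y hy
    refine (hA x P y w gx3 hPl y1 (y2.trans hKx) hx3P hwa).trans ?_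
    gcongr
  have hFB : ∀ y ∈ Sy x K, 6 ≤ y → ∀ Z : ℝ, -∑ l ∈ pw x w, js (y - 2) l / l ≤ Z →
      ((am P y).card : ℝ) ≤ C4 * (P * (E ^ 2 * Real.exp Z)) := by
    intro y hy h6 Z hZ
    obtain ⟨y1, y2⟩ := hmemS y hy
    refine (hF x P y w gx4 hPl (by omega) (y2.trans hKx) hx3P hwb).trans ?_
    have e1 : -∑ l ∈ pw x w, (2 + js (y - 2) l) / l =
        (-∑ l ∈ pw x w, (1 : ℝ) / l) + (-∑ l ∈ pw x w, (1 : ℝ) / l) +
          (-∑ l ∈ pw x w, js (y - 2) l / l) := by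
      rw [← neg_add, ← neg_add, ← Finset.sum_add_distrib, ← Finset.sum_add_distrib]
      congr 1
      refine Finset.sum_congr rfl fun l _ => ?_
      ring
    rw [e1, Real.exp_add, Real.exp_add, pow_two]
    gcongr
  have hGo : ∀ t : ℕ, -∑ l ∈ pw x w, js t l / l ≤ C6 + ∑ j ∈ Ico j0 J, |bl t j| ∧
      -∑ l ∈ pw x w, js t l / l ≤ C6 + ∑ j ∈ Ico j0 j1, |bl t j| + Real.log (J / j1) := by
    intro t
    rw [hw]
    exact hG x t j0 j1 J (by omega) hj0d hj0c hj01 hj1J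
  have key := split_sum (Sy x K) B1 B2 (fun y => ((am P y).card : ℝ)) (C3 * (P * E))
    (D * (P * E ^ 2) * (2 * L ^ 6)) (D * (P * E ^ 2)) (by positivity) (by positivity) (by positivity)
    (fun y hy => (hmemS y hy).1) hFA (by
      intro y hy h6 hnot
      have ht : ∑ j ∈ Ico j0 j1, |bl (y - 2) j| ≤ 1 := by
        by_contra hc
        apply hnot
        rw [hB1, mem_filter, mem_Icc]
        have := (hmemS y hy).2
        exact ⟨⟨by omega, by omega⟩, not_le.1 hc⟩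
      have h1 := hFB y hy h6 (C6 + 1 + Real.log (J / j1)) (by
        have := (hGo (y - 2)).2
        linarith)
      refine h1.trans ?_
      rw [Real.exp_add, Real.exp_log (by linarith), hD]
      calc C4 * (P * (E ^ 2 * (Real.exp (C6 + 1) * ((J : ℝ) / j1))))
          ≤ C4 * (P * (E ^ 2 * (Real.exp (C6 + 1) * (2 * L ^ 6)))) := by gcongr
        _ = C4 * Real.exp (C6 + 1) * (P * E ^ 2) * (2 * L ^ 6) := by ring) (by
      intro y hy h6 hnot
      have ht : ∑ j ∈ Ico j0 J, |bl (y - 2) j| ≤ 1 := by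
        by_contra hc
        apply hnot
        rw [hB2, mem_filter, mem_Icc]
        have := (hmemS y hy).2
        exact ⟨⟨by omega, by omega⟩, not_le.1 hc⟩
      have h1 := hFB y hy h6 (C6 + 1) (by
        have := (hGo (y - 2)).1
        linarith)
      refine h1.trans (le_of_eq ?_)
      rw [hD]
      ring)
  refine ⟨P, K, ?_, ?_, ?_, ?_, hPhi, ?_⟩
  · intro l hl h7 h2
    rw [hPd]
    exact PP_dvd x l hl h7 h2
  · rw [← hLd]
    exact hKle
  · rw [← hLd]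
    exact hKlt
  · linarith
  · -- the final count
    have hSc : ((Sy x K).card : ℝ) ≤ C1 * (κ * (x ^ 2 * L) / L ^ 3) := by
      refine (hS x K g2 (by omega) hKx).trans ?_
      gcongr
    have t1 : (5 + (B1.card : ℝ)) * (C3 * (P * E)) ≤ P * (1 / 8) := by
      have h1 : (5 + (B1.card : ℝ)) * (C3 * (P * E)) ≤
          (5 + C2 * (x / L ^ 6 * L * (3 * L))) * (C3 * (P * E)) := by gcongr
      have h2 : (5 + C2 * (x / L ^ 6 * L * (3 * L))) * (C3 * (P * E)) =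
          P * (5 * C3 * C7 * L / x + 3 * C2 * C3 * C7 / L ^ 3) := by
        rw [hEd]
        field_simp
      rw [h2] at h1
      refine h1.trans (mul_le_mul_of_nonneg_left ?_ hP0'.le)
      linarith
    have t2 : (B2.card : ℝ) * (D * (P * E ^ 2) * (2 * L ^ 6)) ≤ P * (1 / 4) := by
      have h1 : (B2.card : ℝ) * (D * (P * E ^ 2) * (2 * L ^ 6)) ≤
          C2 * (x * L * (3 * L)) * (D * (P * E ^ 2) * (2 * L ^ 6)) := by gcongr
      have h2 : C2 * (x * L * (3 * L)) * (D * (P * E ^ 2) * (2 * L ^ 6)) =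
          P * (6 * C2 * D * C7 ^ 2 * L ^ 10 / x) := by
        rw [hEd]
        field_simp
        ring
      rw [h2] at h1
      exact h1.trans (mul_le_mul_of_nonneg_left g13 hP0'.le)
    have t3 : ((Sy x K).card : ℝ) * (D * (P * E ^ 2)) ≤ P * (1 / 4) := by
      have h1 : ((Sy x K).card : ℝ) * (D * (P * E ^ 2)) ≤
          C1 * (κ * (x ^ 2 * L) / L ^ 3) * (D * (P * E ^ 2)) := by gcongr
      have h2 : C1 * (κ * (x ^ 2 * L) / L ^ 3) * (D * (P * E ^ 2)) =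
          P * (C1 * D * C7 ^ 2 * κ) := by
        rw [hEd]
        field_simp
      rw [h2] at h1
      exact h1.trans (mul_le_mul_of_nonneg_left hκ2 hP0'.le)
    linarith

end Pool.Agent.Helper60.LZ
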