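import Pool.Agent.Helper15.AB.M_ML
import Pool.Agent.Helper15.AB.M_AL
import Pool.Agent.Helper15.AB.M_GA
import Pool.Agent.Helper15.AB.M_GS
import Pool.Agent.Helper15.AB.M_MT
import Pool.Agent.Helper18.TR.Final
import Pool.Agent.Helper48.BK.Top
import Pool.Agent.Helper40.PB.M_PIP
import Pool.Agent.Helper36.LK.M_SVU
import Pool.Agent.Helper62.KS.M_PSI
import Pool.Agent.Helper65.KS.M_RNL
import Pool.Agent.Helper43.KS.M_JCH
import Pool.Agent.Helper89.KS.M_SQR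
import Pool.Agent.Helper42.KS.M_PEL
import Pool.Agent.Helper7.KS.M_TRF
import Pool.Agent.Helper94.LZ.M_SRZ
import Pool.Agent.Helper84.LZ.M_MSQ
import Pool.Agent.Helper36.LZ.M_FYA
import Pool.Agent.Helper22.LZ.M_FYB
import Pool.Agent.Helper75.LZ.M_SPL
import Pool.Agent.Helper21.LZ.M_GOO
import Pool.Agent.Helper70.LZ.M_FNZ
import Pool.Agent.Helper60.LZ.M_TOT

/-!
# Project LZ: the closed modules
-/

set_option autoImplicit false

namespace Pool.Agent.Helper60.LZ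

open Pool.Agent
open Pool.Agent.Helper30.LK (StSVU)
open Pool.Agent.Helper30.PB (StPIP)
open Pool.Agent.Helper93.KS (StPSI)

theorem qSVU : StSVU := Helper36.LK.hSVU Helper18.TR.fl Helper15.AB.hMT

theorem qPIP : StPIP := Helper40.PB.hPIP Helper48.BK.tSW

theorem qPSI : StPSI := Helper62.KS.hPSI Helper65.KS.hRNL Helper43.KS.hJCH Helper89.KS.hSQR Helper42.KS.hPEL

theorem qMSQ : StMSQ := Helper84.LZ.hMSQ qPSI Helper65.KS.hRNL Helper7.KS.hTRF (Helper15.AB.hML (Helper15.AB.hAL Helper15.AB.hGA) Helper15.AB.hGS)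

/-- everything but BAD -/
theorem qFNZ (hB : StBAD) : StFNZ :=
  Helper70.LZ.hFNZ (hTOT (Helper94.LZ.hSRZ qSVU Helper15.AB.hMT) hB (Helper36.LZ.hFYA qSVU)
    (Helper22.LZ.hFYB qSVU) (Helper75.LZ.hSPL Helper15.AB.hMT) (Helper21.LZ.hGOO Helper15.AB.hMT) qPIP)

end Pool.Agent.Helper60.LZ
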