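import Pool.Agent.Helper60.LZ.St

/-!
# Project LZ, module BAD: exceptional characters
-/

set_option autoImplicit false
set_option maxHeartbeats 1000000

noncomputable section

namespace Pool.Agent.Helper60.LZ

open Finset

private theorem cover (K : ℕ) (f : ℕ → ℝ) (hf : ∀ t, 0 ≤ f t) (D : ℝ) (hD : 0 ≤ D) (hK : 4 ≤ K)
    (h : ∀ T : ℕ, 3 ≤ T → T ≤ K → ∑ t ∈ Ioc T (2 * T), f t ≤ D) :
    ∑ t ∈ Icc 4 K, f t ≤ 3 * Real.log K * D := by
  classical
  set I : Finset ℕ := (range (Nat.log 2 K + 1)).filter (fun i => 3 * 2 ^ i ≤ K) with hI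
  have h1 : ∀ t ∈ Icc 4 K, f t ≤ ∑ i ∈ I, if t ∈ Ioc (3 * 2 ^ i) (2 * (3 * 2 ^ i)) then f t else 0 := by
    intro t ht
    rw [mem_Icc] at ht
    obtain ⟨i, hi⟩ : ∃ i, i = Nat.log 2 ((t - 1) / 3) := ⟨_, rfl⟩
    have ha : 2 ^ i ≤ (t - 1) / 3 := by
      rw [hi]
      exact Nat.pow_log_le_self 2 (by omega)
    have hb : (t - 1) / 3 < 2 ^ (i + 1) := by
      rw [hi]
      exact Nat.lt_pow_succ_log_self (by norm_num) _
    rw [pow_succ] at hb
    have hc : t ∈ Ioc (3 * 2 ^ i) (2 * (3 * 2 ^ i)) := by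
      rw [mem_Ioc]
      constructor <;> omega
    have hmem : i ∈ I := by
      rw [hI, mem_filter, mem_range]
      refine ⟨?_, by omega⟩
      have : i ≤ Nat.log 2 K := by
        rw [hi]
        exact Nat.log_mono_right (by omega)
      omega
    calc f t = if t ∈ Ioc (3 * 2 ^ i) (2 * (3 * 2 ^ i)) then f t else 0 := by rw [if_pos hc]
      _ ≤ _ := Finset.single_le_sum
          (f := fun i => if t ∈ Ioc (3 * 2 ^ i) (2 * (3 * 2 ^ i)) then f t else 0)
          (fun j _ => by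
            show 0 ≤ (if t ∈ Ioc (3 * 2 ^ j) (2 * (3 * 2 ^ j)) then f t else 0)
            split_ifs
            · exact hf t
            · exact le_rfl) hmem
  have h2 : ∑ t ∈ Icc 4 K, f t ≤ ∑ i ∈ I, D := by
    refine (Finset.sum_le_sum h1).trans ?_
    rw [Finset.sum_comm]
    refine Finset.sum_le_sum fun i hi => ?_
    rw [← Finset.sum_filter]
    rw [hI, mem_filter] at hi
    refine le_trans ?_ (h (3 * 2 ^ i) (by
      have : 1 ≤ 2 ^ i := Nat.one_le_two_pow
      omega) hi.2)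
    refine Finset.sum_le_sum_of_subset_of_nonneg ?_ (fun t _ _ => hf t)
    intro t ht
    exact (mem_filter.1 ht).2
  rw [Finset.sum_const, nsmul_eq_mul] at h2
  refine h2.trans (mul_le_mul_of_nonneg_right ?_ hD)
  have h3 : (I.card : ℝ) ≤ (Nat.log 2 K : ℝ) + 1 := by
    have : I.card ≤ Nat.log 2 K + 1 := by
      rw [hI]
      exact (card_filter_le _ _).trans (by rw [card_range])
    exact_mod_cast this
  have hK4 : (4 : ℝ) ≤ K := by exact_mod_cast hK
  have h4 : (Nat.log 2 K : ℝ) * Real.log 2 ≤ Real.log K := by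
    have h5 : ((2 ^ Nat.log 2 K : ℕ) : ℝ) ≤ K := by
      exact_mod_cast Nat.pow_log_le_self 2 (by omega : K ≠ 0)
    have h6 := Real.log_le_log (by positivity) h5
    push_cast at h6
    rwa [Real.log_pow] at h6
  have h7 : 2 * Real.log 2 ≤ Real.log K := by
    have h8 := Real.log_le_log (by norm_num) hK4
    rw [show (4 : ℝ) = 2 ^ 2 by norm_num, Real.log_pow] at h8
    exact_mod_cast h8
  have h9 := Real.log_two_gt_d9
  have h10 : (0 : ℝ) ≤ (Nat.log 2 K : ℝ) := Nat.cast_nonneg _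
  nlinarith

open Classical in
/-- MODULE BAD. -/
theorem hBAD (hM : StMSQ) : StBAD := by
  obtain ⟨C, hC, hM⟩ := hM
  refine ⟨6 * C, by positivity, ?_⟩
  intro K j0 J hK hj0 hJ
  have hj16 : 16 ≤ j0 := by
    by_contra hc
    have h1 : 2 ^ j0 ≤ 2 ^ 15 := Nat.pow_le_pow_right (by norm_num) (by omega)
    have h2 : 4 ^ 4 ≤ K ^ 4 := Nat.pow_le_pow_left hK 4
    omega
  have hJ16 : 16 ≤ J := hj16.trans hJ
  have hlogK : 0 ≤ Real.log K := Real.log_natCast_nonneg K
  -- one block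
  have hblock : ∀ j ∈ Ico j0 J, ∑ t ∈ Icc 4 K, bl t j ^ 2 ≤ 3 * Real.log K * (C / j) := by
    intro j hj
    rw [mem_Ico] at hj
    refine cover K (fun t => bl t j ^ 2) (fun t => sq_nonneg _) (C / j) (by positivity) hK ?_
    intro T hT3 hTK
    refine hM T j hT3 ?_
    calc 256 * T ^ 4 ≤ 256 * K ^ 4 := Nat.mul_le_mul_left _ (Nat.pow_le_pow_left hTK 4)
      _ ≤ 2 ^ j0 := hj0
      _ ≤ 2 ^ j := Nat.pow_le_pow_right (by norm_num) hj.1
  -- the harmonic sum
  have hharm : ∑ j ∈ Ico j0 J, (1 : ℝ) / j ≤ 2 * Real.log J := by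
    have h1 : ∑ j ∈ Ico j0 J, (1 : ℝ) / j ≤ ∑ j ∈ Icc 1 J, (1 : ℝ) / j := by
      refine Finset.sum_le_sum_of_subset_of_nonneg ?_ (fun j _ _ => by positivity)
      intro j hj
      rw [mem_Ico] at hj
      rw [mem_Icc]
      omega
    have h2 : ∑ j ∈ Icc 1 J, (1 : ℝ) / j = ((harmonic J : ℚ) : ℝ) := by
      rw [harmonic_eq_sum_Icc]
      push_cast
      refine Finset.sum_congr rfl fun j _ => ?_
      rw [one_div]
    have h3 := harmonic_le_one_add_log J
    have h4 : 1 ≤ Real.log J := by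
      have h5 : Real.log 16 ≤ Real.log J := Real.log_le_log (by norm_num) (by exact_mod_cast hJ16)
      have h6 : Real.log 16 = 4 * Real.log 2 := by
        rw [show (16 : ℝ) = 2 ^ 4 by norm_num, Real.log_pow]
        norm_num
      have h7 := Real.log_two_gt_d9
      linarith
    linarith
  -- Cauchy and Markov
  have hmark : (((Icc 4 K).filter (fun t => 1 < ∑ j ∈ Ico j0 J, |bl t j|)).card : ℝ) ≤
      ∑ t ∈ Icc 4 K, (∑ j ∈ Ico j0 J, |bl t j|) ^ 2 := by
    rw [Finset.card_eq_sum_ones, Nat.cast_sum]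
    refine (Finset.sum_le_sum (f := fun _ => ((1 : ℕ) : ℝ))
      (g := fun t => (∑ j ∈ Ico j0 J, |bl t j|) ^ 2) ?_).trans
      (Finset.sum_le_sum_of_subset_of_nonneg (filter_subset _ _) (fun t _ _ => sq_nonneg _))
    intro t ht
    have h1 := (mem_filter.1 ht).2
    push_cast
    nlinarith
  have hcs : ∀ t : ℕ, (∑ j ∈ Ico j0 J, |bl t j|) ^ 2 ≤
      2 * Real.log J * ∑ j ∈ Ico j0 J, (j : ℝ) * bl t j ^ 2 := by
    intro t
    have h1 := Finset.sum_sq_le_sum_mul_sum_of_sq_eq_mul (Ico j0 J) (r := fun j : ℕ => |bl t j|)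
      (f := fun j : ℕ => (1 : ℝ) / j) (g := fun j : ℕ => (j : ℝ) * bl t j ^ 2)
      (fun j _ => by positivity) (fun j _ => by positivity) (by
        intro j hj
        rw [mem_Ico] at hj
        have hj0' : (j : ℝ) ≠ 0 := by
          have : j ≠ 0 := by omega
          exact_mod_cast this
        rw [sq_abs]
        field_simp)
    refine h1.trans (mul_le_mul_of_nonneg_right hharm ?_)
    exact Finset.sum_nonneg fun j _ => by positivity
  calc (((Icc 4 K).filter (fun t => 1 < ∑ j ∈ Ico j0 J, |bl t j|)).card : ℝ)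
      ≤ ∑ t ∈ Icc 4 K, (∑ j ∈ Ico j0 J, |bl t j|) ^ 2 := hmark
    _ ≤ ∑ t ∈ Icc 4 K, 2 * Real.log J * ∑ j ∈ Ico j0 J, (j : ℝ) * bl t j ^ 2 :=
        Finset.sum_le_sum fun t _ => hcs t
    _ = 2 * Real.log J * ∑ j ∈ Ico j0 J, (j : ℝ) * ∑ t ∈ Icc 4 K, bl t j ^ 2 := by
        rw [← Finset.mul_sum, Finset.sum_comm]
        congr 1
        refine Finset.sum_congr rfl fun j _ => ?_
        rw [Finset.mul_sum]
    _ ≤ 2 * Real.log J * ∑ j ∈ Ico j0 J, 3 * Real.log K * C := by
        refine mul_le_mul_of_nonneg_left (Finset.sum_le_sum fun j hj => ?_)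
          (by have := Real.log_natCast_nonneg J; linarith)
        have h1 := hblock j hj
        rw [mem_Ico] at hj
        have hj0' : (0 : ℝ) < j := by
          have : 0 < j := by omega
          exact_mod_cast this
        calc (j : ℝ) * ∑ t ∈ Icc 4 K, bl t j ^ 2 ≤ j * (3 * Real.log K * (C / j)) :=
              mul_le_mul_of_nonneg_left h1 hj0'.le
          _ = 3 * Real.log K * C := by field_simp
    _ ≤ 2 * Real.log J * (J * (3 * Real.log K * C)) := by
        rw [Finset.sum_const, nsmul_eq_mul, Nat.card_Ico]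
        have h1 : ((J - j0 : ℕ) : ℝ) ≤ J := by exact_mod_cast Nat.sub_le _ _
        refine mul_le_mul_of_nonneg_left (mul_le_mul_of_nonneg_right h1 (by positivity))
          (by have := Real.log_natCast_nonneg J; linarith)
    _ = 6 * C * (J * Real.log J * Real.log K) := by ring

end Pool.Agent.Helper60.LZ
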