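import Pool.Agent.Helper30.LY.St
import Pool.Agent.Helper93.KS.St2

/-!
# Project LZ (MP_5e9b96_nt): for infinitely many `n` no admissible pair has `y ≤ c (log n) ^ 2 log log n`
Statements of the modules, with proofs.

Let `P` be the product of the primes `7 ≤ l ≤ x / 2` and `n = P - 4 + P m`, `1 ≤ m ≤ P` (`log n` is of the order of `x`).  For `n ≡ - 4 (mod l)`: `(n - y) + n y ≡ - (5 y + 4)`, `(n - y) ^ 2 + n y ^ 2 ≡ (4 - y)(3 y + 4)`.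
So only the survivors `y ∈ Sy x K` have to be considered (SRZ: at most `C K / (log K) ^ 3`), and for each of them the number of the `m` with two primes is bounded by an upper bound sieve (FYA, FYB); the quadratic characters of
`(y - 2) ^ 2 - 4 = y (y - 4)` are controlled in mean square by the large sieve (MSQ, BAD).
-/

set_option autoImplicit false

noncomputable section

namespace Pool.Agent.Helper60.LZ

open Finset
open Pool.Agent.Helper15.AB (StMT StML)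
open Pool.Agent.Helper30.PB (StPIP)
open Pool.Agent.Helper30.LK (StSVU)
open Pool.Agent.Helper30.LY (Sy)
open Pool.Agent.Helper93.KS (StPSI StTRF StRNL)

/-- the symbol `((t ^ 2 - 4) / l)` as a real number -/
def js (t l : ℕ) : ℝ := ((jacobiSym ((t : ℤ) ^ 2 - 4) l : ℤ) : ℝ)

/-- the primes in `[2 ^ j, 2 ^ (j + 1))` -/
def bp (j : ℕ) : Finset ℕ := (Ico (2 ^ j) (2 ^ (j + 1))).filter Nat.Prime

/-- the block sum -/
def bl (t j : ℕ) : ℝ := ∑ p ∈ bp j, js t p / p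

/-- the primes `x / 2 < l`, `7 ≤ l ≤ w` -/
def pw (x w : ℕ) : Finset ℕ := (Icc 7 w).filter (fun l => l.Prime ∧ x < 2 * l)

open Classical in
/-- the `m ∈ [1, P]` such that `(n - y) + n y` and `(n - y) ^ 2 + n y ^ 2` are prime, `n = P - 4 + P m` -/
def am (P y : ℕ) : Finset ℕ :=
  (Icc 1 P).filter (fun m => (((P - 4 + P * m) - y) + (P - 4 + P * m) * y).Prime ∧
    (((P - 4 + P * m) - y) ^ 2 + (P - 4 + P * m) * y ^ 2).Prime)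

/-- (SRZ, assume `hS : StSVU`, `hM : StMT`.) PROOF. As `Helper71/LY/M_SRY.lean`, with `K ^ (1 / 4) ≤ x ^ (3 / 4) ≤ x / 2` for `x ≥ 16`. -/
def StSRZ : Prop := ∃ C : ℝ, 0 < C ∧ ∀ x K : ℕ, 16 ≤ x → 2 ≤ K → K ≤ x ^ 3 → ((Sy x K).card : ℝ) ≤ C * (K / Real.log K ^ 3)

/-- (MSQ, assume `hP : StPSI`, `hR : StRNL`, `hT : StTRF`, `hM : StML`.) Large sieve in mean square. PROOF. For `t ∈ (T, 2 T]` and `p ∈ bp j` one has `0 < t ^ 2 - 4 < p`, so `js t p = sx t p = ψ t p` (RNL, PSI), `ψ t` primitive of conductor `≤ 16 T ^ 2`, different for different `t`. TRF and ML with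
`Q = 16 T ^ 2`, the coefficients `1 / p`, `p ∈ bp j`: `∑ ≤ C (2 ^ j + 256 T ^ 4) ∑_{p ∈ bp j} 1 / p ^ 2`, and `|bp j| ≤ C 2 ^ j / j` (Chebyshev). -/
def StMSQ : Prop := ∃ C : ℝ, 0 < C ∧ ∀ T j : ℕ, 3 ≤ T → 256 * T ^ 4 ≤ 2 ^ j → ∑ t ∈ Ioc T (2 * T), bl t j ^ 2 ≤ C / j

open Classical in
/-- (BAD, assume `hM : StMSQ`.) PROOF. Cover `[4, K]` by the at most `2 log K` intervals `(3 · 2 ^ i, 6 · 2 ^ i]`, `3 · 2 ^ i ≤ K`: `∑_{t ∈ [4, K]} bl t j ^ 2 ≤ 2 C log K / j` for `j ≥ j0`. Cauchy: `(∑_{j0 ≤ j < J} |bl t j|) ^ 2 ≤ (∑ 1 / j)(∑ j bl t j ^ 2)`, `∑ 1 / j ≤ 1 + log J`; sum over `t`. -/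
def StBAD : Prop := ∃ C : ℝ, 0 < C ∧ ∀ K j0 J : ℕ, 4 ≤ K → 256 * K ^ 4 ≤ 2 ^ j0 → j0 ≤ J →
  (((Icc 4 K).filter (fun t => 1 < ∑ j ∈ Ico j0 J, |bl t j|)).card : ℝ) ≤ C * (J * Real.log J * Real.log K)

/-- (FYA, assume `hS : StSVU`.) One `y`, the first number only. PROOF. StSVU with `Y = P`: for the primes `l ∈ pw x w` with `l ∤ y + 1` let `S l` be the class of `m` with `(y + 1)(P - 4 + P m) ≡ y` modulo `l` (`l ∤ P`), and `S l = ∅` for the other `l`. If `m ∈ am P y` then `(n - y) + n y = (y + 1) n - y` is a prime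
`≥ n ≥ P > P ^ δ ≥ l`, so it is not divisible by `l` (`y ≤ n`). At most three primes `l > x / 2` divide `y + 1 ≤ 2 x ^ 3` if `x` is large (`(x / 2) ^ 4 > 2 x ^ 3`), so `∑ |S l| / l ≥ ∑_{l ∈ pw x w} 1 / l - 1`. -/
def StFYA : Prop := ∃ C δ : ℝ, 0 < C ∧ 0 < δ ∧ δ ≤ 1 / 4 ∧ ∃ x₀ : ℕ, ∀ x P y w : ℕ, x₀ ≤ x → (∀ l : ℕ, l.Prime → l ∣ P → 2 * l ≤ x) →
  1 ≤ y → y ≤ x ^ 3 → x ^ 3 ≤ P → (w : ℝ) ≤ (P : ℝ) ^ δ →
  ((am P y).card : ℝ) ≤ C * (P * Real.exp (-∑ l ∈ pw x w, (1 : ℝ) / l))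

/-- (FYB, assume `hS : StSVU`.) One `y`, both numbers. PROOF. As FYA with the classes `S l` of the `m` with `l ∣ ((y + 1) n - y)(n ^ 2 + (y ^ 2 - 2 y) n + y ^ 2)`, `n = P - 4 + P m`, for `l ∈ pw x w`: for `l ∤ 2 y (y - 4)(y + 1)(2 y + 1)` there are exactly `2 + js (y - 2) l` classes: one for the first factor
(`l ∤ y + 1`), `1 + (y ^ 3 (y - 4) / l) = 1 + (y (y - 4) / l) = 1 + js (y - 2) l` for the second (discriminant `y ^ 3 (y - 4)`, `y (y - 4) = (y - 2) ^ 2 - 4`), and no common root: at `n = y / (y + 1)` the second factor is `y ^ 3 (2 y + 1) / (y + 1) ^ 2`. Always at most three classes (for `l ∣ y + 1` or other `l` take `S l = ∅`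
if convenient). The exceptional `l > x / 2` divide `y (y - 4)(y + 1)(2 y + 1)`, which is nonzero and `≤ 4 x ^ 12 (..)`: at most `13` of them for large `x`, with `∑ 3 / l ≤ 1`. If `m ∈ am P y` both numbers are primes `> l`. -/
def StFYB : Prop := ∃ C δ : ℝ, 0 < C ∧ 0 < δ ∧ δ ≤ 1 / 4 ∧ ∃ x₀ : ℕ, ∀ x P y w : ℕ, x₀ ≤ x → (∀ l : ℕ, l.Prime → l ∣ P → 2 * l ≤ x) →
  5 ≤ y → y ≤ x ^ 3 → x ^ 3 ≤ P → (w : ℝ) ≤ (P : ℝ) ^ δ →
  ((am P y).card : ℝ) ≤ C * (P * Real.exp (-∑ l ∈ pw x w, (2 + js (y - 2) l) / l))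

/-- (SPL, assume `hM : StMT`.) Mertens for `pw`. PROOF. StMT at `y = w` and `y = x / 2` (`pw x w` is the set of the primes in `(x / 2, w]`, `x ≥ 14`). -/
def StSPL : Prop := ∃ C : ℝ, 0 < C ∧ ∀ x w : ℕ, 14 ≤ x → x ≤ w →
  |∑ l ∈ pw x w, (1 : ℝ) / l - (Real.log (Real.log w) - Real.log (Real.log x))| ≤ C

/-- (GOO, assume `hM : StMT`.) Splitting of the character sum. PROOF. `pw x (2 ^ J - 1)` is the disjoint union of the primes in `(x / 2, 2 ^ j0)` and the `bp j`, `j0 ≤ j < J`; `|js t l| ≤ 1`, StMT for the first part (`log (2 ^ j0) ≤ 40 log x`) and for the blocks `j1 ≤ j < J` (`∑ 1 / p ≤ log (J / j1) + C`). -/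
def StGOO : Prop := ∃ C : ℝ, 0 < C ∧ ∀ x t j0 j1 J : ℕ, 14 ≤ x → x ≤ 2 ^ j0 → 2 ^ j0 ≤ x ^ 40 → j0 ≤ j1 → j1 ≤ J →
  -∑ l ∈ pw x (2 ^ J - 1), js t l / l ≤ C + ∑ j ∈ Ico j0 J, |bl t j| ∧
  -∑ l ∈ pw x (2 ^ J - 1), js t l / l ≤ C + ∑ j ∈ Ico j0 j1, |bl t j| + Real.log (J / j1)

/-- (TOT, assume `hS : StSRZ`, `hB : StBAD`, `hA : StFYA`, `hF : StFYB`, `hL : StSPL`, `hG : StGOO`, `hP : StPIP`.) The union bound. PROOF. `P = ∏` of the primes `7 ≤ l ≤ x / 2`: `c x ≤ log P ≤ x` (PIP with `Q = 1`, `primorial_le_4_pow`; see `Helper51/LY/M_FNY.lean`). Let `δ` be the smaller exponent of FYA, FYB, `J` the largest integer with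
`2 ^ J ≤ P ^ δ`, `w = 2 ^ J - 1`, `K = ⌊κ x ^ 2 log x⌋`, `j0 = ⌈log₂ (256 K ^ 4)⌉` (so `2 ^ j0 ≤ x ^ 40`), `j1 = ⌊x / (log x) ^ 6⌋`. By SPL `exp(- ∑_{l ∈ pw x w} 1 / l) ≤ C log x / x`. `∑_{y ∈ Sy x K} |am P y|` is bounded by the sum of: (i) the `y ≤ 5`: FYA, `5 C P log x / x`; (ii) the `y ≥ 6` such that `t = y - 2` is in the set of BAD for
`[j0, j1)`: at most `C j1 (log x) ^ 2 ≤ C x / (log x) ^ 4` of them, FYA: `C P / (log x) ^ 3`; (iii) the other `y ≥ 6` in the set of BAD for `[j0, J)`: at most `C x (log x) ^ 2` of them, FYB and GOO (second part): `C P (log x / x) ^ 2 (J / j1) ≤ C P (log x) ^ 8 / x ^ 2`, total `C P (log x) ^ 10 / x`; (iv) the other `y ≥ 6`: FYB and GOO (first part):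
`C P (log x / x) ^ 2` for each of the `C K / (log K) ^ 3` elements of `Sy x K`: `C κ P`. So for small `κ` and large `x` the sum is `< P`. -/
def StTOT : Prop := ∃ κ c : ℝ, 0 < κ ∧ 0 < c ∧ ∃ x₀ : ℕ, ∀ x : ℕ, x₀ ≤ x → ∃ P K : ℕ, (∀ l : ℕ, l.Prime → 7 ≤ l → 2 * l ≤ x → l ∣ P) ∧
  (K : ℝ) ≤ κ * (x ^ 2 * Real.log x) ∧ κ * (x ^ 2 * Real.log x) < K + 1 ∧ c * x ≤ Real.log P ∧ Real.log P ≤ x ∧
  ∑ y ∈ Sy x K, ((am P y).card : ℝ) < P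

/-- (FNZ, assume `hT : StTOT`.) PROOF. Some `m ∈ [1, P]` is in none of the sets `am P y`, `y ∈ Sy x K`; `n = P - 4 + P m`, `P ≤ n ≤ P ^ 2 + P`. For `y ≤ K`, `y ∉ Sy x K`, some prime `7 ≤ l ≤ x / 2` divides `(5 y + 4)(y - 4)(3 y + 4)`, `n ≡ - 4` modulo `l`, and one of the two numbers is divisible by `l` and `> l`
(end of `Helper51/LY/M_FNY.lean`). `log n ≤ 3 x`, `log log n ≤ 2 log x`. -/
def StFNZ : Prop := ∃ c : ℝ, 0 < c ∧ ∀ n₀ : ℕ, ∃ n : ℕ, n₀ ≤ n ∧ ∀ y : ℕ, 1 ≤ y →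
  (y : ℝ) ≤ c * (Real.log n ^ 2 * Real.log (Real.log n)) →
    y < n ∧ ¬ (((n - y) + n * y).Prime ∧ ((n - y) ^ 2 + n * y ^ 2).Prime)

end Pool.Agent.Helper60.LZ
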