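import Pool.Agent.Helper60.LZ.All0
import Pool.Agent.Helper60.LZ.M_BAD

/-!
# Project LZ: assembly
-/

set_option autoImplicit false

namespace Pool.Agent.Helper60.LZ

/-- for infinitely many `n` no admissible pair has `y ≤ c (log n) ^ 2 log log n` -/
theorem pFNZ : StFNZ := qFNZ (hBAD qMSQ)

end Pool.Agent.Helper60.LZ
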